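import Pool.Agent.Helper31.PW.MOR
import Pool.Agent.Helper95.PM.Stmts

/-!
# The Morawetz inequality for molecules
-/

set_option autoImplicit false

namespace Pool.Agent.Helper31.PMMOR

open MeasureTheory Filter Topology Pool.Agent.Helper95.PW Pool.Agent.Helper31.PWMOR

theorem dvt {n : ℕ} (c : Cf n) (k : Fin n) (i : Fin 3) (v : Cf n → ℝ) (x : Cf n) :
    dv k i (fun x => v (x + c)) x = dv k i v (x + c) := by
  unfold dv
  rw [fderiv_comp_add_right]

theorem aeb {n : ℕ} (k : Fin n) (b : R3) : ∀ᵐ x : Cf n, nr (x k - b) ≠ 0 := by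
  have h := (measurePreserving_sub_right (volume : Measure (Cf n))
    (fun _ => b)).quasiMeasurePreserving.ae (ae1 k)
  exact h

theorem ha1 (h : ST_HA3) : ST_HA1 := by
  intro n k v hv hc
  have := h n k 0 v hv hc
  simpa using this

/-- one over square root, centre `b` -/
noncomputable def rb {n : ℕ} (b : R3) (s : ℝ) (k : Fin n) (x : Cf n) : ℝ :=
  (Real.sqrt ((x k 0 - b 0) ^ 2 + (x k 1 - b 1) ^ 2 + (x k 2 - b 2) ^ 2 + s ^ 2))⁻¹

theorem gb_c {n : ℕ} (b : R3) (s : ℝ) (k : Fin n) :
    ContDiff ℝ (⊤ : ℕ∞) (fun x : Cf n =>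
      (x k 0 - b 0) ^ 2 + (x k 1 - b 1) ^ 2 + (x k 2 - b 2) ^ 2 + s ^ 2) := by
  fun_prop

theorem gb_p {n : ℕ} (b : R3) {s : ℝ} (hs : 0 < s) (k : Fin n) (x : Cf n) :
    0 < (x k 0 - b 0) ^ 2 + (x k 1 - b 1) ^ 2 + (x k 2 - b 2) ^ 2 + s ^ 2 := by positivity

theorem rb_c {n : ℕ} (b : R3) {s : ℝ} (hs : 0 < s) (k : Fin n) :
    ContDiff ℝ (⊤ : ℕ∞) (rb (n := n) b s k) :=
  rho (gb_c b s k) (gb_p b hs k)

theorem rb_p {n : ℕ} (b : R3) {s : ℝ} (hs : 0 < s) (k : Fin n) (x : Cf n) : 0 < rb b s k x :=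
  inv_pos.2 (Real.sqrt_pos.2 (gb_p b hs k x))

theorem dgb {n : ℕ} (b : R3) (s : ℝ) (k l : Fin n) (i : Fin 3) (x : Cf n) :
    dv l i (fun x : Cf n =>
      (x k 0 - b 0) ^ 2 + (x k 1 - b 1) ^ 2 + (x k 2 - b 2) ^ 2 + s ^ 2) x =
      if l = k then 2 * (x k i - b i) else 0 := by
  have c : ∀ j, ContDiff ℝ (⊤ : ℕ∞) (fun x : Cf n => x k j - b j) :=
    fun j => (cco k j).sub contDiff_const
  have c0 := (c 0).pow 2
  have c1 := (c 1).pow 2
  have c2 := (c 2).pow 2
  have e1 := da l i ((c0.add c1).add c2) (contDiff_const (c := s ^ 2)) x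
  have e2 := da l i (c0.add c1) c2 x
  have e3 := da l i c0 c1 x
  have e4 : ∀ j, dv l i (fun x : Cf n => x k j - b j) x =
      (Pi.single l (Pi.single i 1) : Cf n) k j := by
    intro j
    have h := dco k l i j x
    rw [← h]
    unfold dv
    rw [fderiv_sub_const]
  rw [e1, e2, e3, dc, dsq l i (c 0), dsq l i (c 1), dsq l i (c 2), e4, e4, e4]
  by_cases h : l = k
  · subst h
    fin_cases i <;> simp
  · have h' : k ≠ l := fun h2 => h h2.symm
    simp [h, h']

theorem drb {n : ℕ} (b : R3) {s : ℝ} (hs : 0 < s) (k l : Fin n) (i : Fin 3) (x : Cf n) :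
    dv l i (rb b s k) x = if l = k then -((x k i - b i) * rb b s k x ^ 3) else 0 := by
  have h := drho l i (gb_c b s k) (gb_p b hs k) x
  rw [dgb] at h
  have h2 : dv l i (rb b s k) x = dv l i (fun x : Cf n =>
    (Real.sqrt ((x k 0 - b 0) ^ 2 + (x k 1 - b 1) ^ 2 + (x k 2 - b 2) ^ 2 + s ^ 2))⁻¹) x := rfl
  rw [h2, h]
  unfold rb
  split_ifs <;> ring

theorem nb {n : ℕ} (b : R3) (k : Fin n) (x : Cf n) : nr (x k - b) ^ 2 =
    (x k 0 - b 0) ^ 2 + (x k 1 - b 1) ^ 2 + (x k 2 - b 2) ^ 2 := by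
  have := nr_sq (x k - b)
  simpa only [Pi.sub_apply] using this

theorem rb_le {n : ℕ} (b : R3) {s : ℝ} (k : Fin n) (x : Cf n) (h : nr (x k - b) ≠ 0) :
    rb b s k x ≤ 1 / nr (x k - b) := by
  unfold rb
  have hp : 0 < nr (x k - b) := lt_of_le_of_ne (nr_nn _) (Ne.symm h)
  have h1 : 0 < (x k 0 - b 0) ^ 2 + (x k 1 - b 1) ^ 2 + (x k 2 - b 2) ^ 2 := by
    rw [← nb]; positivity
  have h2 := ale (s ^ 2) h1 (sq_nonneg s)
  rw [one_div]
  exact h2

theorem ib (int : ST_INTM) {n : ℕ} {v w : Cf n → ℝ} (hv : ContDiff ℝ (⊤ : ℕ∞) v)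
    (hc : HasCompactSupport v) (hw : ContDiff ℝ (⊤ : ℕ∞) w) (hd : HasCompactSupport w) (b : R3)
    (k : Fin n) : Integrable (fun x : Cf n => 1 / nr (x k - b) * (v x * w x)) := by
  refine (int n 1 (fun _ => b) (fun _ => 1) v w hv hc hw hd).1.mono ?_ (ae_of_all _ fun x => ?_)
  · refine (Measurable.aestronglyMeasurable ?_).mul
      (hv.continuous.mul hw.continuous).aestronglyMeasurable
    exact measurable_const.div (mnr.comp ((measurable_pi_apply k).sub measurable_const))
  · simp only [norm_mul]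
    refine mul_le_mul_of_nonneg_right ?_ (by positivity)
    have h0 : ∀ l ∈ Finset.univ, 0 ≤ pot (fun _ : Fin 1 => b) (fun _ => 1) (x l) := fun l _ => by
      unfold pot
      have := nr_nn (x l - b)
      simp
      exact this
    have h1 := Finset.single_le_sum (f := fun l => pot (fun _ : Fin 1 => b) (fun _ => 1) (x l)) h0
      (Finset.mem_univ k)
    have h3 : pot (fun _ : Fin 1 => b) (fun _ => 1) (x k) = 1 / nr (x k - b) := by
      unfold pot; simp
    have h2 := h0 k (Finset.mem_univ k)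
    rw [h3] at h1 h2
    rw [Real.norm_of_nonneg h2, Real.norm_of_nonneg (h2.trans h1)]
    exact h1

/-- attraction by a nucleus at `b` -/
theorem ATb (ibp : ST_IBP) (ha : ST_HA3) (int : ST_INTM) {n : ℕ} {s : ℝ} (hs : 0 < s)
    {v : Cf n → ℝ} (hv : ContDiff ℝ (⊤ : ℕ∞) v) (hc : HasCompactSupport v) (b : R3) (k : Fin n) :
    ∫ x, 1 / nr (x k - b) * (v x * PP s v x) ≤ 2 * ∫ x, ∑ i, dv k i v x ^ 2 := by
  have hP := PP_c hs hv
  have hQ := PP_s (s := s) hc
  refine le_of_tendsto' (lim (Ge := fun m => rb b (1 / ((m : ℝ) + 1)) k)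
    (ib int hv hc hP hQ b k) ?_ ?_ ?_) ?_
  · intro m
    exact ((rb_c b (em m) k).continuous.mul
      (hv.continuous.mul hP.continuous)).aestronglyMeasurable
  · intro m
    filter_upwards [aeb k b] with x hx
    have h1 := rb_p b (em m) k x
    have h2 := rb_le b (s := 1 / ((m : ℝ) + 1)) k x hx
    rw [abs_of_pos h1, abs_of_pos (h1.trans_le h2)]
    exact h2
  · filter_upwards [aeb k b] with x hx
    have hp : 0 < nr (x k - b) := lt_of_le_of_ne (nr_nn _) (Ne.symm hx)
    have h1 : 0 < (x k 0 - b 0) ^ 2 + (x k 1 - b 1) ^ 2 + (x k 2 - b 2) ^ 2 := by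
      rw [← nb]; positivity
    have h2 := tl h1
    rw [one_div]
    exact h2
  · intro m
    have he := em m
    generalize 1 / ((m : ℝ) + 1) = e at he ⊢
    have h := L1 ibp hs hv hc (rb_c b he k)
    have i1 : Integrable (fun x => rb b e k x * (v x * PP s v x)) :=
      icc ((rb_c b he k).mul (hv.mul hP)) (hc.mul_right.mul_left)
    have hh := ha n k b v hv hc
    have h2 : ∫ x, 2 * (rb b e k x * (v x * PP s v x)) ≤
        ∫ x, ((2 * (rb b e k x * (v x * PP s v x)) +
        v x ^ 2 * ∑ m, ∑ i, aa s m i x * dv m i (rb b e k) x) + v x ^ 2 / nr (x k - b) ^ 2) := by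
      refine integral_mono_ae (i1.const_mul 2) (h.1.add hh.1) ?_
      filter_upwards [aeb k b] with x hx
      have e1 : ∑ m, ∑ i, aa s m i x * dv m i (rb b e k) x =
          -(rh s k x * rb b e k x ^ 3 * (x k 0 * (x k 0 - b 0) + x k 1 * (x k 1 - b 1) +
            x k 2 * (x k 2 - b 2))) := by
        rw [Finset.sum_eq_single k]
        · simp only [drb b he, Fin.sum_univ_three, if_true]
          unfold aa
          ring
        · intro c _ hb
          simp [drb b he, hb]
        · intro h; exact absurd (Finset.mem_univ k) h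
      have hp : 0 < nr (x k - b) := lt_of_le_of_ne (nr_nn _) (Ne.symm hx)
      have k2 := rb_le b (s := e) k x hx
      have k3 := rh_p hs k x
      have k4 := rb_p b he k x
      have hq := rh_q hs k x
      have hn := nb b k x
      -- Cauchy-Schwarz
      have k8 : rh s k x * (x k 0 * (x k 0 - b 0) + x k 1 * (x k 1 - b 1) +
            x k 2 * (x k 2 - b 2)) ≤ nr (x k - b) := by
        refine abs_le_of_sq_le_sq' ?_ hp.le |>.2
        rw [hn]
        have e9 : (rh s k x * (x k 0 * (x k 0 - b 0) + x k 1 * (x k 1 - b 1) +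
            x k 2 * (x k 2 - b 2))) ^ 2 =
            ((x k 0 - b 0) ^ 2 + (x k 1 - b 1) ^ 2 + (x k 2 - b 2) ^ 2) - rh s k x ^ 2 *
            (s ^ 2 * ((x k 0 - b 0) ^ 2 + (x k 1 - b 1) ^ 2 + (x k 2 - b 2) ^ 2) +
            (x k 0 * (x k 1 - b 1) - x k 1 * (x k 0 - b 0)) ^ 2 +
            (x k 0 * (x k 2 - b 2) - x k 2 * (x k 0 - b 0)) ^ 2 +
            (x k 1 * (x k 2 - b 2) - x k 2 * (x k 1 - b 1)) ^ 2) := by
          linear_combination ((x k 0 - b 0) ^ 2 + (x k 1 - b 1) ^ 2 + (x k 2 - b 2) ^ 2) * hq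
        rw [e9]
        have : 0 ≤ rh s k x ^ 2 *
            (s ^ 2 * ((x k 0 - b 0) ^ 2 + (x k 1 - b 1) ^ 2 + (x k 2 - b 2) ^ 2) +
            (x k 0 * (x k 1 - b 1) - x k 1 * (x k 0 - b 0)) ^ 2 +
            (x k 0 * (x k 2 - b 2) - x k 2 * (x k 0 - b 0)) ^ 2 +
            (x k 1 * (x k 2 - b 2) - x k 2 * (x k 1 - b 1)) ^ 2) := by positivity
        linarith
      have k5 : rh s k x * rb b e k x ^ 3 * (x k 0 * (x k 0 - b 0) + x k 1 * (x k 1 - b 1) +
            x k 2 * (x k 2 - b 2)) ≤ 1 / nr (x k - b) ^ 2 := by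
        calc rh s k x * rb b e k x ^ 3 * (x k 0 * (x k 0 - b 0) + x k 1 * (x k 1 - b 1) +
            x k 2 * (x k 2 - b 2)) = rb b e k x ^ 3 * (rh s k x *
              (x k 0 * (x k 0 - b 0) + x k 1 * (x k 1 - b 1) + x k 2 * (x k 2 - b 2))) := by ring
          _ ≤ rb b e k x ^ 3 * nr (x k - b) := by gcongr
          _ ≤ (1 / nr (x k - b)) ^ 3 * nr (x k - b) := by gcongr
          _ = 1 / nr (x k - b) ^ 2 := by field_simp
      rw [e1]
      have k7 : v x ^ 2 * (rh s k x * rb b e k x ^ 3 * (x k 0 * (x k 0 - b 0) +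
          x k 1 * (x k 1 - b 1) + x k 2 * (x k 2 - b 2))) ≤ v x ^ 2 / nr (x k - b) ^ 2 := by
        calc v x ^ 2 * (rh s k x * rb b e k x ^ 3 * (x k 0 * (x k 0 - b 0) +
          x k 1 * (x k 1 - b 1) + x k 2 * (x k 2 - b 2))) ≤
            v x ^ 2 * (1 / nr (x k - b) ^ 2) := by gcongr
          _ = v x ^ 2 / nr (x k - b) ^ 2 := by ring
      linarith
    rw [integral_add h.1 hh.1, h.2, integral_const_mul] at h2
    linarith [hh.2]

theorem int1 (int : ST_INTM) {n : ℕ} {v w : Cf n → ℝ} (hv : ContDiff ℝ (⊤ : ℕ∞) v)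
    (hc : HasCompactSupport v) (hw : ContDiff ℝ (⊤ : ℕ∞) w) (hd : HasCompactSupport w) {k l : Fin n}
    (hkl : k < l) : Integrable (fun x : Cf n => 1 / nr (x k - x l) * (v x * w x)) := by
  refine (int n 0 (fun _ => 0) (fun _ => 0) v w hv hc hw hd).2.1.mono ?_
    (ae_of_all _ fun x => ?_)
  · refine (Measurable.aestronglyMeasurable ?_).mul
      (hv.continuous.mul hw.continuous).aestronglyMeasurable
    exact measurable_const.div (mnr.comp ((measurable_pi_apply k).sub (measurable_pi_apply l)))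
  · simp only [norm_mul]
    refine mul_le_mul_of_nonneg_right ?_ (by positivity)
    have h0 : ∀ a b : Fin n, 0 ≤ (if a < b then 1 / nr (x a - x b) else 0) := fun a b => by
      have := nr_nn (x a - x b)
      split_ifs
      · positivity
      · exact le_refl 0
    have h1 : 1 / nr (x k - x l) ≤ rep x := by
      unfold rep
      have e1 := Finset.single_le_sum (f := fun b => if k < b then 1 / nr (x k - x b) else 0)
        (fun b _ => h0 k b) (Finset.mem_univ l)
      have e2 := Finset.single_le_sum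
        (f := fun a => ∑ b, if a < b then 1 / nr (x a - x b) else 0)
        (fun a _ => Finset.sum_nonneg (fun b _ => h0 a b)) (Finset.mem_univ k)
      simp only [hkl, if_true] at e1
      exact e1.trans e2
    have h2 : 0 ≤ 1 / nr (x k - x l) := by
      have := nr_nn (x k - x l); positivity
    rw [Real.norm_of_nonneg h2, Real.norm_of_nonneg (h2.trans h1)]
    exact h1

/-- the integrability row of the atomic case -/
theorem inta (int : ST_INTM) : ST_INT := by
  intro n v w hv hc hw hd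
  have h := int n 1 (fun _ => 0) (fun _ => 1) v w hv hc hw hd
  have e : ∀ x : Cf n, ∑ k, pot (fun _ : Fin 1 => (0 : R3)) (fun _ => 1) (x k) = att x := by
    intro x
    unfold pot att
    simp
  simp only [e] at h
  exact h

theorem hmML (int : ST_INTM) {n M : ℕ} (X : Fin M → R3) (Z : Fin M → ℝ) (E : ℝ) {v : Cf n → ℝ}
    (hv : ContDiff ℝ (⊤ : ℕ∞) v) (hc : HasCompactSupport v) :
    MemLp (fun x => hmM X Z v x - E * v x) 2 := by
  have hI := int n M X Z v v hv hc hv hc
  have hvm : Measurable v := hv.continuous.measurable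
  have mp : Measurable (fun x : Cf n => ∑ k, pot X Z (x k)) := by
    unfold pot
    refine Finset.measurable_sum _ (fun k _ => Finset.measurable_sum _ (fun j _ => ?_))
    exact measurable_const.div (mnr.comp ((measurable_pi_apply k).sub measurable_const))
  have m1 : MemLp (fun x => (∑ k, pot X Z (x k)) * v x) 2 :=
    (memLp_two_iff_integrable_sq (mp.mul hvm).aestronglyMeasurable).2 hI.2.2.1
  have m3 := hmL (inta int) 0 E hv hc
  have m4 := m3.sub m1
  have e : (fun x => hmM X Z v x - E * v x) =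
      (fun x => hm 0 v x - E * v x) - fun x => (∑ k, pot X Z (x k)) * v x := by
    funext x
    simp only [Pi.sub_apply]
    unfold hm hmM
    ring
  rw [e]
  exact m4

/-- the inequality for a single function -/
theorem MVM (ibp : ST_IBP) (ha : ST_HA3) (int : ST_INTM) {n M : ℕ} (X : Fin M → R3)
    {Z : Fin M → ℝ} {E s : ℝ} (hZ : ∀ j, 0 ≤ Z j)
    (hs : 0 < s) {v : Cf n → ℝ} (hv : ContDiff ℝ (⊤ : ℕ∞) v) (hc : HasCompactSupport v) :
    ∫ x, (∑ k, mor s (x k)) * v x ^ 2 ≤
      2 * (∫ x, (hmM X Z v x - E * v x) * PP s v x) + 4 * (∑ j, Z j) * K1 v := by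
  have hP := PP_c hs hv
  have hQ := PP_s (s := s) hc
  have hI := int n M X Z v (PP s v) hv hc hP hQ
  have iA1 : MemLp (PP s v) 2 := hP.continuous.memLp_of_hasCompactSupport hQ
  have iA0 : Integrable (fun x => (hm 0 v x - E * v x) * PP s v x) :=
    (hmL (inta int) 0 E hv hc).integrable_mul iA1
  have a0 := MV ibp (ha1 ha) (inta int) (Z := 0) (E := E) le_rfl hs hv hc
  have b4 : ∫ x, (∑ k, pot X Z (x k)) * (v x * PP s v x) ≤ 2 * (∑ j, Z j) * K1 v := by
    have e : (fun x => (∑ k, pot X Z (x k)) * (v x * PP s v x)) = fun x => ∑ k, ∑ j,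
        Z j * (1 / nr (x k - X j) * (v x * PP s v x)) := by
      funext x
      unfold pot
      rw [Finset.sum_mul]
      refine Finset.sum_congr rfl (fun k _ => ?_)
      rw [Finset.sum_mul]
      refine Finset.sum_congr rfl (fun j _ => ?_)
      ring
    have i1 : ∀ (k : Fin n) (j : Fin M),
        Integrable (fun x : Cf n => Z j * (1 / nr (x k - X j) * (v x * PP s v x))) :=
      fun k j => (ib int hv hc hP hQ (X j) k).const_mul _
    unfold K1
    rw [e, integral_finsetSum _ (fun k _ => integrable_finsetSum _ (fun j _ => i1 k j)),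
      Finset.mul_sum]
    refine Finset.sum_le_sum (fun k _ => ?_)
    rw [integral_finsetSum _ (fun j _ => i1 k j), mul_comm (2 : ℝ), Finset.sum_mul,
      Finset.sum_mul]
    refine Finset.sum_le_sum (fun j _ => ?_)
    rw [integral_const_mul, mul_assoc]
    exact mul_le_mul_of_nonneg_left (ATb ibp ha int hs hv hc (X j) k) (hZ j)
  have b5 : ∫ x, (hmM X Z v x - E * v x) * PP s v x =
      (∫ x, (hm 0 v x - E * v x) * PP s v x) -
        ∫ x, (∑ k, pot X Z (x k)) * (v x * PP s v x) := by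
    rw [← integral_sub iA0 hI.1]
    refine integral_congr_ae (ae_of_all _ fun x => ?_)
    simp only []
    unfold hm hmM
    ring
  rw [b5]
  linarith

/-- the Morawetz inequality with centre at the origin -/
theorem mor0 (ibp : ST_IBP) (ha : ST_HA3) (int : ST_INTM) (n M : ℕ) (X : Fin M → R3)
    (Z : Fin M → ℝ) (E s : ℝ) (u : Wf n) (hZ : ∀ j, 0 ≤ Z j) (hs : 0 < s) (hu : Sm u) :
    one (mor s) u ≤ 4 * (∑ j, Z j) * kin u + 8 * Real.sqrt (n * kin u * resM X Z E u) := by
  have hk : kin u = ∑ t, K1 (u t) := by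
    unfold kin K1 Pool.Agent.Helper95.PW.sq
    have e : ∀ t (k : Fin n), ∫ x, ∑ i, dv k i (u t) x ^ 2 = ∑ i, ∫ x, dv k i (u t) x ^ 2 :=
      fun t k => integral_finsetSum _ (fun i _ => dvi (hu t).1 (hu t).2 k i)
    simp only [e]
    rw [Finset.sum_comm (s := (Finset.univ : Finset (Fin n → Fin 2)))]
    exact Finset.sum_congr rfl (fun k _ => Finset.sum_comm)
  have h1 : one (mor s) u ≤ 2 * (∑ t, ∫ x, (hmM X Z (u t) x - E * u t x) * PP s (u t) x) +
      4 * (∑ j, Z j) * kin u := by
    rw [hk, Finset.mul_sum, Finset.mul_sum, ← Finset.sum_add_distrib]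
    exact Finset.sum_le_sum (fun t _ => MVM ibp ha int X hZ hs (hu t).1 (hu t).2)
  have hC : ∑ t, ∫ x, PP s (u t) x ^ 2 ≤ 16 * n * kin u := by
    rw [hk, Finset.mul_sum]
    exact Finset.sum_le_sum (fun t _ => PN (ha1 ha) hs (hu t).1 (hu t).2)
  have hA : ∑ t, ∫ x, (hmM X Z (u t) x - E * u t x) ^ 2 = resM X Z E u := rfl
  have hM : ∀ t, MemLp (fun x => hmM X Z (u t) x - E * u t x) 2 :=
    fun t => hmML int X Z E (hu t).1 (hu t).2
  have hN : ∀ t, MemLp (PP s (u t)) 2 := fun t =>
    (PP_c hs (hu t).1).continuous.memLp_of_hasCompactSupport (PP_s (hu t).2)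
  have hB : (∑ t, ∫ x, (hmM X Z (u t) x - E * u t x) * PP s (u t) x) ^ 2 ≤
      resM X Z E u * ∑ t, ∫ x, PP s (u t) x ^ 2 := by
    have hd : ∀ y : ℝ, 0 ≤ resM X Z E u * (y * y) +
        (-2 * ∑ t, ∫ x, (hmM X Z (u t) x - E * u t x) * PP s (u t) x) * y +
        ∑ t, ∫ x, PP s (u t) x ^ 2 := by
      intro y
      have e : ∀ t, ∫ x, (y * (hmM X Z (u t) x - E * u t x) - PP s (u t) x) ^ 2 =
          (y * y) * (∫ x, (hmM X Z (u t) x - E * u t x) ^ 2) +
          (-2 * y) * (∫ x, (hmM X Z (u t) x - E * u t x) * PP s (u t) x) +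
          ∫ x, PP s (u t) x ^ 2 := by
        intro t
        have j1 : Integrable (fun x => (hmM X Z (u t) x - E * u t x) ^ 2) := (hM t).integrable_sq
        have j2 : Integrable (fun x => (hmM X Z (u t) x - E * u t x) * PP s (u t) x) :=
          (hM t).integrable_mul (hN t)
        have j3 : Integrable (fun x => PP s (u t) x ^ 2) := (hN t).integrable_sq
        rw [← l3 j1 j2 j3]
        refine integral_congr_ae (ae_of_all _ fun x => ?_)
        simp only []
        ring
      have h : 0 ≤ ∑ t, ∫ x, (y * (hmM X Z (u t) x - E * u t x) - PP s (u t) x) ^ 2 :=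
        Finset.sum_nonneg (fun t _ => integral_nonneg (fun x => sq_nonneg _))
      rw [Finset.sum_congr rfl (fun t _ => e t), Finset.sum_add_distrib, Finset.sum_add_distrib,
        ← Finset.mul_sum, ← Finset.mul_sum, hA] at h
      linarith
    have := discrim_le_zero hd
    unfold discrim at this
    nlinarith
  have hr : 0 ≤ resM X Z E u := by
    rw [← hA]
    exact Finset.sum_nonneg (fun t _ => integral_nonneg (fun x => sq_nonneg _))
  have hF : (∑ t, ∫ x, (hmM X Z (u t) x - E * u t x) * PP s (u t) x) ≤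
      4 * Real.sqrt (n * kin u * resM X Z E u) := by
    have h2 : (∑ t, ∫ x, (hmM X Z (u t) x - E * u t x) * PP s (u t) x) ^ 2 ≤
        4 ^ 2 * (n * kin u * resM X Z E u) := by
      refine hB.trans ?_
      have := mul_le_mul_of_nonneg_left hC hr
      linarith
    have h3 := Real.abs_le_sqrt h2
    rw [Real.sqrt_mul (by norm_num), Real.sqrt_sq (by norm_num)] at h3
    exact (le_abs_self _).trans h3
  linarith

theorem all (ibp : ST_IBP) (ha : ST_HA3) (int : ST_INTM) : ST_MORM := by
  intro n M X Z E s a u hZ hs hu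
  set c : Cf n := fun _ => a with hc
  set φ : Wf n := fun t x => u t (x + c) with hφ
  have hS : Sm φ := by
    intro t
    refine ⟨(hu t).1.comp (contDiff_id.add contDiff_const), ?_⟩
    exact (hu t).2.comp_homeomorph (Homeomorph.addRight c)
  have h2 : kin φ = kin u := by
    unfold kin Pool.Agent.Helper95.PW.sq
    refine Finset.sum_congr rfl (fun k _ => Finset.sum_congr rfl (fun i _ =>
      Finset.sum_congr rfl (fun t _ => ?_)))
    have e : ∀ x, dv k i (φ t) x = dv k i (u t) (x + c) := fun x => dvt c k i (u t) x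
    simp only [e]
    exact integral_add_right_eq_self (fun x => dv k i (u t) x ^ 2) c
  have h3 : one (mor s) φ = one (fun y => mor s (y - a)) u := by
    unfold one
    refine Finset.sum_congr rfl (fun t _ => ?_)
    rw [← integral_add_right_eq_self (fun x => (∑ k, mor s (x k - a)) * u t x ^ 2) c]
    refine integral_congr_ae (ae_of_all _ fun x => ?_)
    have e : ∀ k, (x + c) k - a = x k := by intro k; simp [hc]
    simp only [e]
    rfl
  have h4 : resM (fun j => X j - a) Z E φ = resM X Z E u := by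
    unfold resM Pool.Agent.Helper95.PW.sq
    refine Finset.sum_congr rfl (fun t _ => ?_)
    rw [← integral_add_right_eq_self (fun x => (hmM X Z (u t) x - E * u t x) ^ 2) c]
    refine integral_congr_ae (ae_of_all _ fun x => ?_)
    have e1 : ∀ k i, dv k i (dv k i (φ t)) x = dv k i (dv k i (u t)) (x + c) := by
      intro k i
      have e : dv k i (φ t) = fun x => dv k i (u t) (x + c) := by
        funext y
        exact dvt c k i (u t) y
      rw [e]
      exact dvt c k i (dv k i (u t)) x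
    have e2 : rep (x + c) = rep x := by
      unfold rep
      have e : ∀ k l : Fin n, (x + c) k - (x + c) l = x k - x l := by
        intro k l
        simp [hc]
      simp only [e]
    have e3 : ∀ k, pot (fun j => X j - a) Z (x k) = pot X Z ((x + c) k) := by
      intro k
      unfold pot
      refine Finset.sum_congr rfl (fun j _ => ?_)
      have e : x k - (X j - a) = (x + c) k - X j := by
        simp [hc]
        abel
      rw [e]
    simp only []
    unfold hmM
    simp only [e1, e2, e3]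
    rfl
  have h := mor0 ibp ha int n M (fun j => X j - a) Z E s φ hZ hs hS
  rw [h2, h3, h4] at h
  exact h

end Pool.Agent.Helper31.PMMOR

namespace Pool.Agent.Helper95.PW

/-- the Morawetz inequality for molecules -/
theorem st_MORM31 (h1 : ST_IBP) (h2 : ST_HA3) (h3 : ST_INTM) (_h4 : ST_QHM) : ST_MORM :=
  Pool.Agent.Helper31.PMMOR.all h1 h2 h3

end Pool.Agent.Helper95.PW
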