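import Pool.Agent.Helper95.PM.Stmts

set_option autoImplicit false

namespace Pool.Agent.Helper31.PMTRI

open MeasureTheory Filter Topology Pool.Agent.Helper95.PW

theorem dvt {n : ℕ} (c : Cf n) (k : Fin n) (i : Fin 3) (v : Cf n → ℝ) (x : Cf n) :
    dv k i (fun x => v (x - c)) x = dv k i v (x - c) := by
  unfold dv
  rw [fderiv_comp_sub]

theorem big {n M : ℕ} {Z : Fin M → ℝ} (hM : 1 ≤ M) (hZ : Nuc n Z) :
    ∃ j, (n : ℝ) / M ≤ Z j ∧ Z j ≤ n := by
  have hM' : (0 : ℝ) < M := by exact_mod_cast hM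
  obtain ⟨h0, h1⟩ := hZ
  have h2 : ∃ j ∈ (Finset.univ : Finset (Fin M)), (n : ℝ) / M ≤ Z j := by
    refine Finset.exists_le_of_sum_le (s := (Finset.univ : Finset (Fin M)))
      (f := fun _ => (n : ℝ) / M) (g := Z) ⟨⟨0, hM⟩, Finset.mem_univ _⟩ ?_
    rw [h1, Finset.sum_const, Finset.card_univ, Fintype.card_fin, nsmul_eq_mul]
    apply le_of_eq
    field_simp
  obtain ⟨j, _, hj⟩ := h2
  refine ⟨j, hj, ?_⟩
  rw [← h1]
  exact Finset.single_le_sum (f := Z) (fun l _ => h0 l) (Finset.mem_univ j)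

theorem nnr (y : R3) : 0 ≤ nr y := Real.sqrt_nonneg _

theorem all (t : ST_TRI1) (int : ST_INTM) : ST_TRIM := by
  obtain ⟨c, Z0, hc, hZ0, h⟩ := t
  refine ⟨c, ⌈Z0⌉₊, hc, ?_⟩
  intro n M X Z hM hZ hn
  obtain ⟨j, hj1, hj2⟩ := big hM hZ
  have hM' : (0 : ℝ) < M := by exact_mod_cast hM
  have hj3 : Z0 ≤ Z j := by
    have h1 : Z0 ≤ (⌈Z0⌉₊ : ℝ) := Nat.le_ceil Z0
    have h2 : ((⌈Z0⌉₊ : ℕ) : ℝ) * M ≤ n := by exact_mod_cast hn
    have h3 : ((⌈Z0⌉₊ : ℕ) : ℝ) ≤ (n : ℝ) / M := by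
      rw [le_div_iff₀ hM']; exact h2
    linarith
  obtain ⟨ψ, hs, ha, hp, hQ⟩ := h n (Z j) hj3 hj2
  have hZj : 0 ≤ Z j := hZ.1 j
  set a : Cf n := fun _ => X j with haa
  set φ : Wf n := fun s x => ψ s (x - a) with hφ
  have hS : Sm φ := by
    intro s
    refine ⟨(hs s).1.comp (contDiff_id.sub contDiff_const), ?_⟩
    exact (hs s).2.comp_homeomorph (Homeomorph.subRight a)
  have hA : Anti φ := by
    intro π s x
    have := ha π s (x - a)
    exact this
  have h1 : Pool.Agent.Helper95.PW.sq φ = Pool.Agent.Helper95.PW.sq ψ := by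
    unfold Pool.Agent.Helper95.PW.sq
    refine Finset.sum_congr rfl (fun s _ => ?_)
    exact integral_sub_right_eq_self (fun x => ψ s x ^ 2) a
  have h2 : kin φ = kin ψ := by
    unfold kin Pool.Agent.Helper95.PW.sq
    refine Finset.sum_congr rfl (fun k _ => Finset.sum_congr rfl (fun i _ =>
      Finset.sum_congr rfl (fun s _ => ?_)))
    have e : ∀ x, dv k i (φ s) x = dv k i (ψ s) (x - a) := fun x => dvt a k i (ψ s) x
    simp only [e]
    exact integral_sub_right_eq_self (fun x => dv k i (ψ s) x ^ 2) a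
  have hr : ∀ x : Cf n, rep (x - a) = rep x := by
    intro x
    unfold rep
    have e : ∀ k l : Fin n, (x - a) k - (x - a) l = x k - x l := by
      intro k l
      simp [haa]
    simp only [e]
  have h3 : pair φ = pair ψ := by
    unfold pair
    refine Finset.sum_congr rfl (fun s _ => ?_)
    have e := integral_sub_right_eq_self (fun x => rep x * ψ s x ^ 2) a (μ := volume)
    rw [← e]
    refine integral_congr_ae (ae_of_all _ fun x => ?_)
    show rep x * ψ s (x - a) ^ 2 = rep (x - a) * ψ s (x - a) ^ 2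
    rw [hr]
  have h4 : Z j * one (fun y => 1 / nr y) ψ ≤ one (pot X Z) φ := by
    unfold one
    rw [Finset.mul_sum]
    refine Finset.sum_le_sum (fun s _ => ?_)
    have e := integral_sub_right_eq_self (fun x => (∑ k, 1 / nr (x k)) * ψ s x ^ 2) a
      (μ := (volume : Measure (Cf n)))
    rw [← e, ← integral_const_mul]
    have i1 := (int n 1 (fun _ => X j) (fun _ => Z j) (φ s) (φ s) (hS s).1 (hS s).2 (hS s).1
      (hS s).2).1
    have i2 := (int n M X Z (φ s) (φ s) (hS s).1 (hS s).2 (hS s).1 (hS s).2).1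
    have e1 : (fun x : Cf n => Z j * ((∑ k, 1 / nr ((x - a) k)) * ψ s (x - a) ^ 2)) =
        fun x => (∑ k, pot (fun _ : Fin 1 => X j) (fun _ => Z j) (x k)) * (φ s x * φ s x) := by
      funext x
      have e2 : ∀ k, pot (fun _ : Fin 1 => X j) (fun _ => Z j) (x k) =
          Z j * (1 / nr ((x - a) k)) := by
        intro k
        unfold pot
        simp [haa]
        ring
      simp only [e2]
      rw [← Finset.mul_sum]
      show _ = _ * (ψ s (x - a) * ψ s (x - a))
      ring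
    have e3 : (fun x : Cf n => (∑ k, pot X Z (x k)) * φ s x ^ 2) =
        fun x => (∑ k, pot X Z (x k)) * (φ s x * φ s x) := by
      funext x
      ring
    rw [e1, e3]
    refine integral_mono i1 i2 (fun x => ?_)
    refine mul_le_mul_of_nonneg_right (Finset.sum_le_sum (fun k _ => ?_)) (mul_self_nonneg _)
    unfold pot
    rw [Fin.sum_univ_one]
    exact Finset.single_le_sum (f := fun l => Z l / nr (x k - X l))
      (fun l _ => div_nonneg (hZ.1 l) (nnr _)) (Finset.mem_univ j)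
  refine ⟨φ, hS, hA, by rw [h1]; exact hp, ?_⟩
  have h5 : ((n : ℝ) / M) ^ (7 / 3 : ℝ) ≤ Z j ^ (7 / 3 : ℝ) :=
    Real.rpow_le_rpow (by positivity) hj1 (by norm_num)
  unfold QM
  unfold Q at hQ
  rw [h1, h2, h3]
  have h6 : c * ((n : ℝ) / M) ^ (7 / 3 : ℝ) * Pool.Agent.Helper95.PW.sq ψ ≤ c * Z j ^ (7 / 3 : ℝ) * Pool.Agent.Helper95.PW.sq ψ := by
    gcongr
  linarith

end Pool.Agent.Helper31.PMTRI

namespace Pool.Agent.Helper95.PW

/-- trial functions for molecules -/
theorem st_TRIM (h1 : ST_TRI1) (h2 : ST_INTM) : ST_TRIM :=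
  Pool.Agent.Helper31.PMTRI.all h1 h2

end Pool.Agent.Helper95.PW
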